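import Pool.Agent.H14.BR.Stm

/-! Crew BR, part CLO (helper42): closed sets of `M` are Borel in `M`. -/

set_option autoImplicit false

namespace H42.BR

open ZFSet (pair)
open Pool.Agent.W868
open MeasureTheory H14.ES H46.RF H14.BR

theorem clo (hZRL : S_ZRL) (hOPH : S_OPH) (hWRD : S_WRD) : S_CLO := by
  intro M hM T hT _ b hb
  have hB := hM.base
  have hom := hM.infinity
  obtain ⟨z1, -, z3⟩ := hZRL
  obtain ⟨⟨Re, hRe, hRe'⟩, -, -⟩ := z3 M hM
  obtain ⟨-, -, w3, -, -, w6⟩ := hWRD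
  obtain ⟨-, -, ⟨Wd, hWd, hWd'⟩, ⟨Ln, hLn, hLn'⟩⟩ := w6 M hM
  refine ⟨?_, ?_, ?_⟩
  · obtain ⟨h, hh, hh'⟩ := hOPH M hM
    have h1 : h T ∈ M := hh.1 (fun _ => T) (fun _ => hT)
    have h2 : b = h T := by
      ext x
      rw [hb x, hh' T hT x]
    rw [h2]
    exact h1
  · intro x hx
    obtain ⟨s, _, rfl, hs⟩ := (hb x).1 hx
    exact ⟨hs, s, rfl⟩
  · intro S hS
    have hSM := hS.mem
    let InS : (ZFSet.{0} → Prop) → Prop := fun A => ∃ c ∈ S, ∀ x, x ∈ c ↔ IsRealIn M x ∧ A x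
    have hbasic : ∀ r n, InS (fun x => ini r n ⊆ x) := hS.basic
    have hcompl : ∀ A, InS A → InS (fun x => ¬ A x) := by
      rintro A ⟨c, hc, hc'⟩
      obtain ⟨d, hd, hd'⟩ := hS.compl c hc
      refine ⟨d, hd, fun x => ?_⟩
      rw [hd' x, hc' x]
      tauto
    have hor : ∀ A B, InS A → InS B → InS (fun x => A x ∨ B x) := by
      rintro A B ⟨c, hc, hc'⟩ ⟨d, hd, hd'⟩
      have hcM := hM.trans _ hSM _ hc
      have hdM := hM.trans _ hSM _ hd
      have h0M := hM.nat_mem 0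
      have h1 : Dfn M M fun w : Fin 2 → ZFSet.{0} =>
          (w 0 = nat 0 ∧ w 1 = c) ∨ (¬ w 0 = nat 0 ∧ w 1 = d) := by
        (repeat' first
          | assumption
          | exact DfnF.proj _
          | exact DfnF.const (by assumption)
          | exact DfnF.const' (by first | assumption | trivial) (by first | assumption | trivial)
          | exact Dfn.prop _
          | apply Dfn.not | apply Dfn.and | apply Dfn.or | apply Dfn.imp | apply Dfn.iff
          | apply hB.bex | apply hB.ball | apply Dfn.ex | apply Dfn.all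
          | apply Dfn.eq | apply Dfn.mem | apply hB.pair')
      obtain ⟨f, hf, hfs, hf'⟩ := hM.rel_mem hom hSM
        (Q := fun a b => (a = nat 0 ∧ b = c) ∨ (¬ a = nat 0 ∧ b = d)) h1
      have hfun : ZFSet.IsFunc ZFSet.omega S f := by
        refine ⟨hfs, fun z hz => ?_⟩
        by_cases h : z = nat 0
        · refine ⟨c, (hf' _ _).2 ⟨hz, hc, Or.inl ⟨h, rfl⟩⟩, fun y hy => ?_⟩
          rcases ((hf' _ _).1 hy).2.2 with h' | h'
          · exact h'.2
          · exact absurd h h'.1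
        · refine ⟨d, (hf' _ _).2 ⟨hz, hd, Or.inr ⟨h, rfl⟩⟩, fun y hy => ?_⟩
          rcases ((hf' _ _).1 hy).2.2 with h' | h'
          · exact absurd h'.1 h
          · exact h'.2
      obtain ⟨e, he, he'⟩ := hS.union f hf hfun
      refine ⟨e, he, fun x => ?_⟩
      rw [he' x]
      constructor
      · rintro ⟨i, b, hib, hxb⟩
        obtain ⟨_, _, h | h⟩ := (hf' _ _).1 hib
        · rw [h.2, hc' x] at hxb
          exact ⟨hxb.1, Or.inl hxb.2⟩
        · rw [h.2, hd' x] at hxb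
          exact ⟨hxb.1, Or.inr hxb.2⟩
      · rintro ⟨hx, h | h⟩
        · exact ⟨nat 0, c, (hf' _ _).2 ⟨mem_omega_iff.2 ⟨0, rfl⟩, hc, Or.inl ⟨rfl, rfl⟩⟩,
            (hc' x).2 ⟨hx, h⟩⟩
        · refine ⟨nat 1, d, (hf' _ _).2 ⟨mem_omega_iff.2 ⟨1, rfl⟩, hd, Or.inr ⟨fun h => ?_, rfl⟩⟩,
            (hd' x).2 ⟨hx, h⟩⟩
          have := nat_injective h
          omega
    have hfalse : InS (fun _ => False) := by
      obtain ⟨c, hc, hc'⟩ := hcompl _ (hbasic (fun _ => false) 0)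
      refine ⟨c, hc, fun x => ?_⟩
      rw [hc' x]
      have h1 : ini (fun _ => false) 0 ⊆ x := by
        intro y hy
        exact absurd hy (ZFSet.notMem_empty y)
      tauto
    have hfin : ∀ (n : ℕ) (A : Finset (ℕ → Bool)), InS (fun x => ∃ r ∈ A, ini r n ⊆ x) := by
      intro n A
      classical
      induction A using Finset.induction_on with
      | empty =>
        obtain ⟨c, hc, hc'⟩ := hfalse
        refine ⟨c, hc, fun x => ?_⟩
        rw [hc' x]
        simp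
      | insert r A _ ih =>
        obtain ⟨c, hc, hc'⟩ := hor _ _ (hbasic r n) ih
        refine ⟨c, hc, fun x => ?_⟩
        rw [hc' x]
        simp only [Finset.mem_insert, exists_eq_or_imp]
    have hn : ∀ n : ℕ, InS (fun x => ∃ r, ini r n ∉ T ∧ ini r n ⊆ x) := by
      intro n
      classical
      obtain ⟨ex, hex⟩ : ∃ ex : (Fin n → Bool) → (ℕ → Bool), ∀ r : ℕ → Bool, ∀ i < n,
          ex (fun i => r i) i = r i :=
        ⟨fun w i => if h : i < n then w ⟨i, h⟩ else false, fun r i hi => by simp [hi]⟩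
      obtain ⟨c, hc, hc'⟩ := hfin n
        ((Finset.univ.filter fun w : Fin n → Bool => ini (ex w) n ∉ T).image ex)
      refine ⟨c, hc, fun x => ?_⟩
      rw [hc' x]
      refine and_congr_right fun _ => ⟨?_, ?_⟩
      · rintro ⟨r, hr, hrx⟩
        obtain ⟨w, hw, rfl⟩ := Finset.mem_image.1 hr
        exact ⟨_, (Finset.mem_filter.1 hw).2, hrx⟩
      · rintro ⟨r, hr, hrx⟩
        have e : ini (ex fun i => r i) n = ini r n := (w3 _ _ _ _).2 ⟨rfl, hex r⟩
        refine ⟨ex fun i => r i, Finset.mem_image.2 ⟨_, Finset.mem_filter.2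
          ⟨Finset.mem_univ _, by rw [e]; exact hr⟩, rfl⟩, by rw [e]; exact hrx⟩
    -- the sequence
    have h1 : Dfn M M fun w : Fin 2 → ZFSet.{0} => ∀ x ∈ Re, (x ∈ w 1 ↔
        ∃ z ∈ Wd, pair z (w 0) ∈ Ln ∧ z ⊆ x ∧ ¬ z ∈ T) := by
      (repeat' first
        | assumption
        | exact DfnF.proj _
        | exact DfnF.const (by assumption)
        | exact DfnF.const' (by first | assumption | trivial) (by first | assumption | trivial)
        | exact Dfn.prop _
        | apply Dfn.not | apply Dfn.and | apply Dfn.or | apply Dfn.imp | apply Dfn.iff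
        | apply hB.bex | apply hB.ball | apply hB.subset' | apply Dfn.ex | apply Dfn.all
        | apply Dfn.eq | apply Dfn.mem | apply hB.pair')
    obtain ⟨f, hf, hfs, hf'⟩ := hM.rel_mem hom hSM
      (Q := fun a b => ∀ x ∈ Re, (x ∈ b ↔ ∃ z ∈ Wd, pair z a ∈ Ln ∧ z ⊆ x ∧ ¬ z ∈ T)) h1
    have key : ∀ (n : ℕ) x, (∃ z ∈ Wd, pair z (nat n) ∈ Ln ∧ z ⊆ x ∧ ¬ z ∈ T) ↔
        ∃ r, ini r n ∉ T ∧ ini r n ⊆ x := by
      intro n x
      constructor
      · rintro ⟨z, _, h2, h3, h4⟩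
        obtain ⟨r, m, h5⟩ := (hLn' _).1 h2
        obtain ⟨rfl, h6⟩ := ZFSet.pair_inj.1 h5
        have h7 := nat_injective h6
        subst h7
        exact ⟨r, h4, h3⟩
      · rintro ⟨r, h2, h3⟩
        exact ⟨ini r n, (hWd' _).2 ⟨r, n, rfl⟩, (hLn' _).2 ⟨r, n, rfl⟩, h3, h2⟩
    have hfun : ZFSet.IsFunc ZFSet.omega S f := by
      refine ⟨hfs, fun z hz => ?_⟩
      obtain ⟨n, rfl⟩ := mem_omega_iff.1 hz
      obtain ⟨c, hc, hc'⟩ := hn n
      refine ⟨c, (hf' _ _).2 ⟨hz, hc, fun x hx => ?_⟩, fun d hd => ?_⟩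
      · rw [hc' x, key]
        exact ⟨fun h => h.2, fun h => ⟨(hRe' x).1 hx, h⟩⟩
      · obtain ⟨_, hdS, hd'⟩ := (hf' _ _).1 hd
        ext x
        constructor
        · intro hx
          have hxr := hS.sub d hdS x hx
          rw [hc' x]
          exact ⟨hxr, (key n x).1 ((hd' x ((hRe' x).2 hxr)).1 hx)⟩
        · intro hx
          rw [hc' x] at hx
          exact (hd' x ((hRe' x).2 hx.1)).2 ((key n x).2 hx.2)
    obtain ⟨e, he, he'⟩ := hS.union f hf hfun
    obtain ⟨c, hc, hc'⟩ := hS.compl e he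
    have hbc : b = c := by
      ext x
      rw [hb x, hc' x]
      constructor
      · rintro ⟨s, hs, rfl, hsM⟩
        refine ⟨⟨hsM, s, rfl⟩, fun hx => ?_⟩
        obtain ⟨i, d, hid, hxd⟩ := (he' _).1 hx
        obtain ⟨hi, hdS, hd'⟩ := (hf' _ _).1 hid
        obtain ⟨n, rfl⟩ := mem_omega_iff.1 hi
        obtain ⟨r, hr, hrs⟩ := (key n _).1 ((hd' _ ((hRe' _).2 ⟨hsM, s, rfl⟩)).1 hxd)
        apply hr
        have e2 : ini r n = ini s n := (w3 _ _ _ _).2 ⟨rfl, (z1 _ _ _).1 hrs⟩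
        rw [e2]
        exact hs n
      · rintro ⟨⟨hxM, s, rfl⟩, hx⟩
        refine ⟨s, fun n => ?_, rfl, hxM⟩
        by_contra hsn
        apply hx
        obtain ⟨d, hd, _⟩ := hfun.2 (nat n) (mem_omega_iff.2 ⟨n, rfl⟩)
        rw [he' _]
        refine ⟨nat n, d, hd, ?_⟩
        obtain ⟨_, _, hd'⟩ := (hf' _ _).1 hd
        exact (hd' _ ((hRe' _).2 ⟨hxM, s, rfl⟩)).2
          ((key n _).2 ⟨s, hsn, (z1 _ _ _).2 fun i _ => rfl⟩)
    rw [hbc]
    exact hc

end H42.BR
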